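import Mathlib
import Pool.Agent.H925R3.DC.Stubs

/-! Task CRD: number of the monomials. -/

namespace Pool.Agent.H972R3.DC_CRD

open Finset

theorem crd : Pool.Agent.H925R3.DC.CRD := by
  intro m hm
  have h : ∀ x : ℕ × ℕ, x ∈ (range (m + 1) ×ˢ ({0} : Finset ℕ)) ∪ (range (m - 1) ×ˢ {1}) ↔
      x ∈ Pool.Agent.H925R3.DC.monSet m := by
    rintro ⟨i, j⟩
    simp only [Pool.Agent.H925R3.DC.monSet, mem_union, mem_product, mem_range, mem_singleton,
      mem_filter]
    omega
  rw [Fintype.card_of_subtype _ h, card_union_of_disjoint, card_product, card_product,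
    card_range, card_range, card_singleton, card_singleton]
  · omega
  · rw [Finset.disjoint_left]
    rintro ⟨i, j⟩ h1 h2
    simp only [mem_product, mem_singleton] at h1 h2
    omega

end Pool.Agent.H972R3.DC_CRD
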